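import Mathlib

set_option autoImplicit false

namespace Pool.Agent.Results.MP_836f85_an.Disproof

open MeasureTheory Set

noncomputable def B (ξ : ℕ → ℝ) : ℕ → ℕ → ℝ → ℝ
  | 0, i, t => if ξ i ≤ t ∧ t < ξ (i + 1) then 1 else 0
  | p + 1, i, t => (t - ξ i) / (ξ (i + p + 1) - ξ i) * B ξ p i t +
      (ξ (i + p + 2) - t) / (ξ (i + p + 2) - ξ (i + 1)) * B ξ p (i + 1) t

noncomputable def S (ξ : ℕ → ℝ) (p n : ℕ) (g : Fin n → ℝ) (t : ℝ) : ℝ :=
  ∑ j : Fin n, g j * B ξ p j t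

def Admissible (ξ : ℕ → ℝ) (p n : ℕ) (ρ : ℝ → ℝ) (x : Fin n → ℝ) : Prop :=
  1 ≤ p ∧ p < n ∧ StrictMono ξ ∧ Continuous ρ ∧ (∀ t, 0 < ρ t) ∧ StrictMono x ∧
    ∀ i : Fin n, x i ∈ Icc (ξ p) (ξ n) ∧ 0 < B ξ p i (x i)

def IsWeights (ξ : ℕ → ℝ) (p n : ℕ) (ρ : ℝ → ℝ) (x w : Fin n → ℝ) : Prop :=
  ∀ g : Fin n → ℝ, ∑ k, w k * S ξ p n g (x k) = ∫ t in (ξ p)..(ξ n), ρ t * S ξ p n g t

def IsEqui (ξ : ℕ → ℝ) (p n : ℕ) (x g : Fin n → ℝ) : Prop :=
  ∀ i : Fin n, S ξ p n g (x i) = (-1) ^ (i : ℕ)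

def Violates (ξ : ℕ → ℝ) (p n : ℕ) (ρ : ℝ → ℝ) (x : Fin n → ℝ) (C : ℝ) : Prop :=
  Admissible ξ p n ρ x ∧ (∃ w, IsWeights ξ p n ρ x w) ∧ (∃ g, IsEqui ξ p n x g) ∧
    ∀ w g, IsWeights ξ p n ρ x w → IsEqui ξ p n x g →
      (∀ t ∈ Icc (ξ p) (ξ n), |S ξ p n g t| ≤ C) ∧
        C * (∫ t in (ξ p)..(ξ n), ρ t) < ∑ k, |w k|

def K (i : ℕ) : ℝ := i

lemma K_mono : StrictMono K := fun _ _ h => by simpa [K] using h

lemma B0 (k : ℕ) (t : ℝ) (h1 : (k : ℝ) ≤ t) (h2 : t < k + 1) (i : ℕ) :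
    B K 0 i t = if i = k then 1 else 0 := by
  simp only [B, K]
  push_cast
  by_cases h : i = k
  · simp [h, h1, h2]
  · rw [if_neg h, if_neg]
    rintro ⟨a, b⟩
    have c1 : (i : ℝ) < k + 1 := by linarith
    have c2 : (k : ℝ) < i + 1 := by linarith
    have d1 : i < k + 1 := by exact_mod_cast c1
    have d2 : k < i + 1 := by exact_mod_cast c2
    omega

lemma Bs (p i : ℕ) (t : ℝ) : B K (p + 1) i t =
    (t - i) / (p + 1) * B K p i t + (i + p + 2 - t) / (p + 1) * B K p (i + 1) t := by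
  simp only [B, K]
  push_cast
  ring_nf

lemma S3 (g : Fin 4 → ℝ) (t : ℝ) (ht : t ∈ Icc (3 : ℝ) 4) : S K 3 4 g t =
    g 0 * ((4 - t) ^ 3 / 6) + g 1 * ((3 * (t - 3) ^ 3 - 6 * (t - 3) ^ 2 + 4) / 6) +
      g 2 * ((-3 * (t - 3) ^ 3 + 3 * (t - 3) ^ 2 + 3 * (t - 3) + 1) / 6) +
        g 3 * ((t - 3) ^ 3 / 6) := by
  have e : ∀ i, B K 3 i t = B K (0 + 1 + 1 + 1) i t := fun _ => rfl
  simp only [S, Fin.sum_univ_four, e, Bs]
  rcases ht.2.lt_or_eq with h | h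
  · have := B0 3 t (by simpa using ht.1) (by norm_num; exact h)
    simp [this]
    ring
  · have := B0 4 t (by simp [h]) (by norm_num [h])
    simp [this]
    rw [h]
    ring

lemma S2 (g : Fin 3 → ℝ) (t : ℝ) (ht : t ∈ Icc (2 : ℝ) 3) : S K 2 3 g t =
    g 0 * ((3 - t) ^ 2 / 2) + g 1 * ((-2 * (t - 2) ^ 2 + 2 * (t - 2) + 1) / 2) +
      g 2 * ((t - 2) ^ 2 / 2) := by
  have e : ∀ i, B K 2 i t = B K (0 + 1 + 1) i t := fun _ => rfl
  simp only [S, Fin.sum_univ_three, e, Bs]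
  rcases ht.2.lt_or_eq with h | h
  · have := B0 2 t (by simpa using ht.1) (by norm_num; exact h)
    simp [this]
    ring
  · have := B0 3 t (by simp [h]) (by norm_num [h])
    simp [this]
    rw [h]
    ring

lemma B_eq (p n : ℕ) (i : Fin n) (t : ℝ) : B K p i t = S K p n (Pi.single i 1) t := by
  simp [S, Pi.single_apply]

lemma polyI (a b c0 c1 c2 c3 c4 : ℝ) :
    ∫ t in a..b, (c0 + c1 * t + c2 * t ^ 2 + c3 * t ^ 3 + c4 * t ^ 4) =
      c0 * (b - a) + c1 * ((b ^ 2 - a ^ 2) / 2) + c2 * ((b ^ 3 - a ^ 3) / 3) +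
        c3 * ((b ^ 4 - a ^ 4) / 4) + c4 * ((b ^ 5 - a ^ 5) / 5) := by
  have h : ∀ t ∈ uIcc a b, HasDerivAt (fun t : ℝ => c0 * t + c1 * (t ^ 2 / 2) + c2 * (t ^ 3 / 3) +
      c3 * (t ^ 4 / 4) + c4 * (t ^ 5 / 5))
      (c0 + c1 * t + c2 * t ^ 2 + c3 * t ^ 3 + c4 * t ^ 4) t := by
    intro t _
    have := (((((hasDerivAt_id' t).const_mul c0).add
      (((hasDerivAt_pow 2 t).div_const 2).const_mul c1)).add
      (((hasDerivAt_pow 3 t).div_const 3).const_mul c2)).add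
      (((hasDerivAt_pow 4 t).div_const 4).const_mul c3)).add
      (((hasDerivAt_pow 5 t).div_const 5).const_mul c4)
    refine (this.congr_deriv ?_ :)
    norm_num
  rw [intervalIntegral.integral_eq_sub_of_hasDerivAt h
    (Continuous.intervalIntegrable (by fun_prop) _ _)]
  ring

lemma I3 (g : Fin 4 → ℝ) : ∫ t in (K 3)..(K 4), (1 : ℝ) * S K 3 4 g t =
    (g 0 + 11 * g 1 + 11 * g 2 + g 3) / 24 := by
  have h3 : K 3 = 3 := by simp [K]
  have h4 : K 4 = 4 := by simp [K]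
  rw [h3, h4, intervalIntegral.integral_congr (g := fun t =>
    (32 / 3 * g 0 - 131 / 6 * g 1 + 50 / 3 * g 2 - 9 / 2 * g 3) +
    (-8 * g 0 + 39 / 2 * g 1 - 16 * g 2 + 9 / 2 * g 3) * t +
    (2 * g 0 - 11 / 2 * g 1 + 5 * g 2 - 3 / 2 * g 3) * t ^ 2 +
    (-(1 / 6) * g 0 + 1 / 2 * g 1 - 1 / 2 * g 2 + 1 / 6 * g 3) * t ^ 3 + 0 * t ^ 4), polyI]
  · ring
  · intro t ht
    rw [uIcc_of_le (by norm_num)] at ht
    simp only [S3 g t ht]
    ring

lemma I2 (g : Fin 3 → ℝ) : ∫ t in (K 2)..(K 3), (20 * (t - 2) ^ 2 + 1) * S K 2 3 g t =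
    g 0 / 2 + 5 * g 1 + 13 / 6 * g 2 := by
  have h2 : K 2 = 2 := by simp [K]
  have h3 : K 3 = 3 := by simp [K]
  set u : ℝ := 9 / 2 * g 0 - 11 / 2 * g 1 + 2 * g 2
  set v : ℝ := -3 * g 0 + 5 * g 1 - 2 * g 2
  set z : ℝ := 1 / 2 * g 0 - g 1 + 1 / 2 * g 2
  rw [h2, h3, intervalIntegral.integral_congr (g := fun t =>
    81 * u + (81 * v - 80 * u) * t + (81 * z - 80 * v + 20 * u) * t ^ 2 +
      (20 * v - 80 * z) * t ^ 3 + 20 * z * t ^ 4), polyI]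
  · simp only [u, v, z]; ring
  · intro t ht
    rw [uIcc_of_le (by norm_num)] at ht
    simp only [S2 g t ht, u, v, z]
    ring

noncomputable def x3 : Fin 4 → ℝ := ![3, 31 / 10, 39 / 10, 4]

noncomputable def x2 : Fin 3 → ℝ := ![2, 5 / 2, 3]

lemma m3 (i : Fin 4) : x3 i ∈ Icc (3 : ℝ) 4 := by
  fin_cases i <;> simp [x3] <;> norm_num

lemma m2 (i : Fin 3) : x2 i ∈ Icc (2 : ℝ) 3 := by
  fin_cases i <;> simp [x2] <;> norm_num

lemma first : Violates K 3 4 (fun _ => 1) x3 2 := by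
  have h3 : K 3 = 3 := by simp [K]
  have h4 : K 4 = 4 := by simp [K]
  have hS := fun g i => S3 g (x3 i) (m3 i)
  refine ⟨⟨by norm_num, by norm_num, K_mono, continuous_const, fun _ => one_pos, ?_, ?_⟩,
    ⟨![-23 / 54, 25 / 27, 25 / 27, -23 / 54], fun g => ?_⟩,
    ⟨![78, -24, 24, -78], fun i => ?_⟩, fun w g hw hg => ⟨fun t ht => ?_, ?_⟩⟩
  · rw [Fin.strictMono_iff_lt_succ]
    intro i
    fin_cases i <;> simp [x3] <;> norm_num
  · intro i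
    rw [h3, h4]
    refine ⟨m3 i, ?_⟩
    rw [B_eq 3 4, hS]
    fin_cases i <;> simp [x3] <;> norm_num
  · rw [I3]
    simp only [Fin.sum_univ_four, hS]
    simp [x3]
    ring
  · rw [hS]
    fin_cases i <;> simp [x3] <;> norm_num
  · rw [h3, h4] at ht
    have a0 := hg 0
    have a1 := hg 1
    have a2 := hg 2
    have a3 := hg 3
    rw [hS] at a0 a1 a2 a3
    simp [x3] at a0 a1 a2 a3
    have b0 : g 0 = 78 := by linarith
    have b1 : g 1 = -24 := by linarith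
    have b2 : g 2 = 24 := by linarith
    have b3 : g 3 = -78 := by linarith
    rw [S3 g t ht, b0, b1, b2, b3, abs_le]
    obtain ⟨c1, c2⟩ := ht
    have d1 : 0 ≤ (2 * t - 7 - 53 / 100) ^ 2 * (2 * t - 7 + 106 / 100) :=
      mul_nonneg (sq_nonneg _) (by linarith)
    have d2 : 0 ≤ (2 * t - 7 + 53 / 100) ^ 2 * (106 / 100 - (2 * t - 7)) :=
      mul_nonneg (sq_nonneg _) (by linarith)
    constructor <;> nlinarith
  · have a0 := hw (Pi.single 0 1)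
    have a1 := hw (Pi.single 1 1)
    have a2 := hw (Pi.single 2 1)
    have a3 := hw (Pi.single 3 1)
    rw [I3] at a0 a1 a2 a3
    simp only [Fin.sum_univ_four, hS] at a0 a1 a2 a3
    simp [x3] at a0 a1 a2 a3
    have b0 : w 0 = -23 / 54 := by linarith
    have b1 : w 1 = 25 / 27 := by linarith
    have b2 : w 2 = 25 / 27 := by linarith
    have b3 : w 3 = -23 / 54 := by linarith
    simp only [Fin.sum_univ_four, b0, b1, b2, b3, h3, h4]
    norm_num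

lemma second : Violates K 2 3 (fun t => 20 * (t - 2) ^ 2 + 1) x2 1 := by
  have h2 : K 2 = 2 := by simp [K]
  have h3 : K 3 = 3 := by simp [K]
  have hS := fun g i => S2 g (x2 i) (m2 i)
  refine ⟨⟨by norm_num, by norm_num, K_mono, by fun_prop, fun _ => by positivity, ?_, ?_⟩,
    ⟨![-1 / 6, 14 / 3, 19 / 6], fun g => ?_⟩,
    ⟨![5, -3, 5], fun i => ?_⟩, fun w g hw hg => ⟨fun t ht => ?_, ?_⟩⟩
  · rw [Fin.strictMono_iff_lt_succ]
    intro i
    fin_cases i <;> simp [x2] <;> norm_num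
  · intro i
    rw [h2, h3]
    refine ⟨m2 i, ?_⟩
    rw [B_eq 2 3, hS]
    fin_cases i <;> simp [x2] <;> norm_num
  · rw [I2]
    simp only [Fin.sum_univ_three, hS]
    simp [x2]
    ring
  · rw [hS]
    fin_cases i <;> simp [x2] <;> norm_num
  · rw [h2, h3] at ht
    have a0 := hg 0
    have a1 := hg 1
    have a2 := hg 2
    rw [hS] at a0 a1 a2
    simp [x2] at a0 a1 a2
    have b0 : g 0 = 5 := by linarith
    have b1 : g 1 = -3 := by linarith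
    have b2 : g 2 = 5 := by linarith
    rw [S2 g t ht, b0, b1, b2, abs_le]
    obtain ⟨c1, c2⟩ := ht
    constructor <;> nlinarith [sq_nonneg (2 * t - 5)]
  · have a0 := hw (Pi.single 0 1)
    have a1 := hw (Pi.single 1 1)
    have a2 := hw (Pi.single 2 1)
    rw [I2] at a0 a1 a2
    simp only [Fin.sum_univ_three, hS] at a0 a1 a2
    simp [x2] at a0 a1 a2
    have b0 : w 0 = -1 / 6 := by linarith
    have b1 : w 1 = 14 / 3 := by linarith
    have b2 : w 2 = 19 / 6 := by linarith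
    have e : ∫ t in (K 2)..(K 3), (20 * (t - 2) ^ 2 + 1 : ℝ) = 23 / 3 := by
      rw [h2, h3, intervalIntegral.integral_congr (g := fun t =>
        81 + (-80) * t + 20 * t ^ 2 + 0 * t ^ 3 + 0 * t ^ 4), polyI]
      · norm_num
      · intro t _
        ring
    simp only [Fin.sum_univ_three, b0, b1, b2, e]
    norm_num

theorem result :
    (∃ (ξ : ℕ → ℝ) (p n : ℕ) (x : Fin n → ℝ) (C : ℝ), Violates ξ p n (fun _ => 1) x C) ∧
    (∃ (ξ : ℕ → ℝ) (p n : ℕ) (ρ : ℝ → ℝ) (x : Fin n → ℝ), Violates ξ p n ρ x 1) :=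
  ⟨⟨K, 3, 4, x3, 2, first⟩, ⟨K, 2, 3, _, x2, second⟩⟩

end Pool.Agent.Results.MP_836f85_an.Disproof
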